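import Mathlib

namespace Pool.Agent.Results.MP_1e46c9_co.Prism

open Set

variable {m n : ℕ}

/-- A `d`-polytope in `ℝ^d`. -/
def Poly {d : ℕ} (P : Set (Fin d → ℝ)) : Prop :=
  (∃ V : Set (Fin d → ℝ), V.Finite ∧ P = convexHull ℝ V) ∧ affineSpan ℝ P = ⊤

/-- The graph of a polytope: two vertices are adjacent when their segment is a face. -/
def graph (P : Set (Fin m → ℝ)) : SimpleGraph (P.exposedPoints ℝ) :=
  .fromRel fun u v => IsExposed ℝ P (segment ℝ u.1 v.1)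

/-- The pyramid with basis `P`. -/
def pyr (P : Set (Fin m → ℝ)) : Set (Fin (m + 1) → ℝ) :=
  convexHull ℝ (insert (Fin.cons 1 0) ((fun x => Fin.cons 0 x) '' P))

theorem mem (v : Fin n → Fin m → ℝ) {x} (h : x ∈ convexHull ℝ (range v)) :
    ∃ w : Fin n → ℝ, (∀ i, 0 ≤ w i) ∧ ∑ i, w i = 1 ∧ ∑ i, w i • v i = x := by
  refine convexHull_min (t := {x | ∃ w : Fin n → ℝ, (∀ i, 0 ≤ w i) ∧ ∑ i, w i = 1 ∧
    ∑ i, w i • v i = x}) ?_ ?_ h
  · rintro _ ⟨i, rfl⟩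
    exact ⟨Pi.single i 1, fun j => by simp [Pi.single_apply]; split_ifs <;> simp, by simp,
      by simp [Pi.single_apply]⟩
  · rintro _ ⟨w, a, b, rfl⟩ _ ⟨u, c, d, rfl⟩ s t hs ht e
    exact ⟨s • w + t • u, fun i => add_nonneg (mul_nonneg hs (a i)) (mul_nonneg ht (c i)), by
      simp [Finset.sum_add_distrib, ← Finset.mul_sum, b, d, e], by
      simp [Finset.sum_add_distrib, Finset.smul_sum, add_smul, mul_smul]⟩

theorem face (v : Fin n → Fin m → ℝ) (l : StrongDual ℝ (Fin m → ℝ)) (i j : Fin n)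
    (h : ∀ k, l (v k) ≤ l (v i) ∧ (l (v k) = l (v i) ↔ k = i ∨ k = j)) : segment ℝ (v i) (v j) =
      {x ∈ convexHull ℝ (range v) | ∀ y ∈ convexHull ℝ (range v), l y ≤ l x} := by
  have s : ∀ k, v k ∈ convexHull ℝ (range v) := fun k => subset_convexHull _ _ ⟨k, rfl⟩
  refine Subset.antisymm (fun x hx => ⟨(convex_convexHull ℝ _).segment_subset (s i) (s j) hx,
    fun y hy => ?_⟩) fun x ⟨a, b⟩ => ?_
  · obtain ⟨p, q, -, -, e, rfl⟩ := hx
    rw [map_add, map_smul, map_smul, (h j).2.2 (.inr rfl), ← add_smul, e, one_smul]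
    exact convexHull_min (t := {y | l y ≤ l (v i)}) (by rintro _ ⟨k, rfl⟩; exact (h k).1)
      (convex_halfSpace_le l.isLinear _) hy
  · obtain ⟨w, c, d, rfl⟩ := mem v a
    have z : ∑ k, w k * (l (v i) - l (v k)) = 0 := le_antisymm (by
      simpa [mul_sub, ← Finset.sum_mul, d] using b _ (s i))
      (Finset.sum_nonneg fun k _ => mul_nonneg (c k) (sub_nonneg.2 (h k).1))
    rw [Finset.sum_eq_zero_iff_of_nonneg fun k _ => mul_nonneg (c k) (sub_nonneg.2 (h k).1)] at z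
    rw [← Finset.sum_filter_of_ne (p := fun k => w k ≠ 0) fun k _ a e => a (by simp [e])]
    refine (convex_segment _ _).sum_mem (fun k _ => c k) (by rw [Finset.sum_filter_ne_zero, d])
      fun k a => ?_
    rcases (h k).2.1 (sub_eq_zero.1 ((mul_eq_zero.1 (z k (Finset.mem_univ _))).resolve_left
      (Finset.mem_filter.1 a).2)).symm with rfl | rfl
    exacts [left_mem_segment _ _ _, right_mem_segment _ _ _]

def g (V : List (List ℤ)) (i a : ℕ) : ℤ := (V.getD i []).getD a 0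

def Ok (n m : ℕ) (V : List (List ℤ)) (C : List (List (List ℤ))) (N : List (List ℤ))
    (A : Fin n → Fin n → Bool) : Prop := (∀ i j : Fin n, if i = j ∨ A i j then ∀ k : Fin n,
      ∑ a : Fin m, g (C.getD i []) j a * g V k a ≤ ∑ a : Fin m, g (C.getD i []) j a * g V i a ∧
      (∑ a : Fin m, g (C.getD i []) j a * g V k a = ∑ a : Fin m, g (C.getD i []) j a * g V i a ↔
        k = i ∨ k = j)
    else ∑ k : Fin n, g (C.getD i []) j k = 0 ∧
      (∀ a : Fin m, ∑ k : Fin n, g (C.getD i []) j k * g V k a = 0) ∧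
      (∀ k : Fin n, k ≠ i → k ≠ j → 0 ≤ g (C.getD i []) j k) ∧
      ∃ k : Fin n, k ≠ i ∧ k ≠ j ∧ 0 < g (C.getD i []) j k) ∧ (∀ i j, A i j = A j i) ∧
    ∀ a : Fin m, ∑ k : Fin n, g N a k = 0 ∧
      ∀ b : Fin m, ∑ k : Fin n, g N a k * g V k b = if a = b then 1 else 0

instance (V : List (List ℤ)) (C : List (List (List ℤ))) (N : List (List ℤ))
    (A : Fin n → Fin n → Bool) : Decidable (Ok n m V C N A) := by unfold Ok; infer_instance

theorem main {V C N A} (h : Ok (n + 1) m V C N A) :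
    Poly (convexHull ℝ (range fun (k : Fin (n + 1)) (a : Fin m) => (g V k a : ℝ))) ∧
    Nonempty (SimpleGraph.fromRel (A · · = true) ≃g
      graph (convexHull ℝ (range fun (k : Fin (n + 1)) (a : Fin m) => (g V k a : ℝ)))) := by
  set v := fun (k : Fin (n + 1)) (a : Fin m) => (g V k a : ℝ)
  have s : ∀ k, v k ∈ convexHull ℝ (range v) := fun k => subset_convexHull _ _ ⟨k, rfl⟩
  have y : ∀ i j, i = j ∨ A i j → ∃ l : StrongDual ℝ (Fin m → ℝ),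
      ∀ k, l (v k) ≤ l (v i) ∧ (l (v k) = l (v i) ↔ k = i ∨ k = j) := fun i j a => by
    have := h.1 i j
    rw [if_pos a] at this
    refine ⟨∑ a : Fin m, (g (C.getD i []) j a : ℝ) • ContinuousLinearMap.proj a, fun k => ?_⟩
    simp only [ContinuousLinearMap.sum_apply, ContinuousLinearMap.smul_apply,
      ContinuousLinearMap.proj_apply, smul_eq_mul, v]
    exact_mod_cast this k
  have x : ∀ i, v i ∈ exposedPoints ℝ (convexHull ℝ (range v)) := fun i => by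
    obtain ⟨l, a⟩ := y i i (.inl rfl)
    exact mem_exposedPoints_iff_exposed_singleton.2 fun _ => ⟨l, by rw [← face v l i i a]; simp⟩
  refine ⟨⟨⟨_, finite_range _, rfl⟩, ?_⟩, ⟨⟨.ofBijective (fun i => ⟨v i, x i⟩)
    ⟨fun i j e => ?_, fun u => ?_⟩, fun {i j} => ?_⟩⟩⟩
  · rw [affineSpan_convexHull, AffineSubspace.affineSpan_eq_top_iff_vectorSpan_eq_top_of_nonempty
      _ _ _ (range_nonempty _), eq_top_iff, ← (Pi.basisFun ℝ (Fin m)).span_eq, Submodule.span_le]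
    rintro _ ⟨a, rfl⟩
    have : Pi.basisFun ℝ (Fin m) a = ∑ k : Fin (n + 1), (g N a k : ℝ) • (v k -ᵥ v 0) := by
      ext b
      have p : ∑ k : Fin (n + 1), (g N a k : ℝ) = 0 := by exact_mod_cast (h.2.2 a).1
      have q : ∑ k : Fin (n + 1), (g N a k : ℝ) * g V k b = if a = b then 1 else 0 := by
        exact_mod_cast (h.2.2 a).2 b
      simp [mul_sub, ← Finset.sum_mul, p, q, v, Pi.single_apply, eq_comm]
    rw [this]
    exact Submodule.sum_mem _ fun k _ => Submodule.smul_mem _ _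
      (vsub_mem_vectorSpan ℝ ⟨k, rfl⟩ ⟨0, rfl⟩)
  · obtain ⟨l, a⟩ := y i i (.inl rfl)
    have e : v i = v j := congrArg Subtype.val e
    simpa [eq_comm] using (a j).2.1 (by rw [e])
  · obtain ⟨i, a⟩ := extremePoints_convexHull_subset (exposedPoints_subset_extremePoints u.2)
    exact ⟨i, Subtype.ext a⟩
  · have key : ∀ i j, i ≠ j → (IsExposed ℝ (convexHull ℝ (range v)) (segment ℝ (v i) (v j)) ↔
        A i j) := fun i j ij => by
      refine ⟨fun e => by_contra fun a => ?_, fun a _ => (y i j (.inr a)).imp fun l => face v l i j⟩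
      have := h.1 i j
      rw [if_neg (by simp [ij, a])] at this
      obtain ⟨p, q, r, k, ki, kj, t⟩ := this
      obtain ⟨l, e⟩ := e ⟨_, left_mem_segment _ _ _⟩
      have ei := (e ▸ left_mem_segment ℝ (v i) (v j) :).2
      have ej := (e ▸ right_mem_segment ℝ (v i) (v j) :).2
      have p : ∑ k : Fin (n + 1), (g (C.getD i []) j k : ℝ) = 0 := by exact_mod_cast p
      have q : ∑ k : Fin (n + 1), (g (C.getD i []) j k : ℝ) • v k = 0 := funext fun a => by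
        simp only [Finset.sum_apply, Pi.smul_apply, smul_eq_mul, v, Pi.zero_apply]
        exact_mod_cast q a
      have z : ∑ k : Fin (n + 1), (g (C.getD i []) j k : ℝ) * (l (v i) - l (v k)) = 0 := by
        simp only [mul_sub, Finset.sum_sub_distrib, ← Finset.sum_mul, p, zero_mul, zero_sub]
        simpa using congrArg l q
      rw [Finset.sum_eq_zero_iff_of_nonneg fun k _ => by
        by_cases a : k = i
        · simp [a]
        by_cases b : k = j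
        · simp [b, (ei _ (s j)).antisymm (ej _ (s i))]
        exact mul_nonneg (Int.cast_nonneg (r k a b)) (sub_nonneg.2 (ei _ (s k)))] at z
      have u := sub_eq_zero.1 ((mul_eq_zero.1 (z k (Finset.mem_univ _))).resolve_left
        (Int.cast_pos.2 t).ne')
      obtain ⟨f, b⟩ := y k k (.inl rfl)
      have : v k ∈ {y | f y < f (v k)} := (convex_halfSpace_lt f.isLinear _).segment_subset
        ((b i).1.lt_of_ne fun e => by simpa [ki.symm] using (b i).2.1 e)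
        ((b j).1.lt_of_ne fun e => by simpa [kj.symm] using (b j).2.1 e)
        (e ▸ ⟨s k, fun y c => u ▸ ei y c⟩)
      exact lt_irrefl (f (v k)) this
    change (_ ≠ _ ∧ (IsExposed ℝ _ (segment ℝ (v i) (v j)) ∨
      IsExposed ℝ _ (segment ℝ (v j) (v i)))) ↔ i ≠ j ∧ (A i j = true ∨ A j i = true)
    by_cases e : i = j
    · simp [e]
    rw [key i j e, key j i (Ne.symm e)]
    refine and_congr_left fun _ => iff_of_true (fun c => ?_) e
    obtain ⟨l, a⟩ := y i i (.inl rfl)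
    have c : v i = v j := congrArg Subtype.val c
    exact e (by simpa [eq_comm] using (a j).2.1 (by rw [c]))

theorem pyr_eq (v : Fin n → Fin m → ℝ) : pyr (convexHull ℝ (range v)) =
    convexHull ℝ (range (Fin.cons (Fin.cons 1 0) fun i => Fin.cons 0 (v i) :
      Fin (n + 1) → Fin (m + 1) → ℝ)) := by
  have : IsLinearMap ℝ fun x : Fin m → ℝ => (Fin.cons 0 x : Fin (m + 1) → ℝ) :=
    ⟨fun x y => funext (Fin.cases (by simp) (by simp)),
      fun x y => funext (Fin.cases (by simp) (by simp))⟩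
  rw [pyr, this.image_convexHull, Fin.range_cons, insert_eq, convexHull_convexHull_union_right,
    ← range_comp, insert_eq]
  rfl

def V3 : List (List ℤ) := [[0, 0, 0], [1, 0, 0], [0, 1, 0], [0, 0, 1], [1, 0, 1], [0, 1, 1]]

def C3 : List (List (List ℤ)) := [[[-1, -1, -1], [0, -1, -1], [-1, 0, -1], [-1, -1, 0], [-1, 1,
  0, 1, -1, 0], [-1, 0, 1, 1, 0, -1]], [[0, -1, -1], [1, -1, -1], [1, 1, -1], [1, -1, 0, -1, 1,
  0], [1, -1, 0], [0, -1, 1, 0, 1, -1]], [[-1, 0, -1], [1, 1, -1], [-1, 1, -1], [1, 0, -1, -1,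
  0, 1], [0, 1, -1, 0, -1, 1], [-1, 1, 0]], [[-1, -1, 0], [1, -1, 0, -1, 1, 0], [1, 0, -1, -1,
  0, 1], [-1, -1, 1], [0, -1, 1], [-1, 0, 1]], [[-1, 1, 0, 1, -1, 0], [1, -1, 0], [0, 1, -1, 0,
  -1, 1], [0, -1, 1], [1, -1, 1], [1, 1, 1]], [[-1, 0, 1, 1, 0, -1], [0, -1, 1, 0, 1, -1], [-1,
  1, 0], [-1, 0, 1], [1, 1, 1], [-1, 1, 1]]]

def N3 : List (List ℤ) := [[-2, 0, 2, 1, 1, -2], [-2, 0, 2, 1, 0, -1], [-2, -1, 2, 2, 1, -2]]

def V5 : List (List ℤ) := [[1, 0, 0, 0, 0], [0, 1, 0, 0, 0], [0, 0, 0, 0, 0], [0, 0, 1, 0, 0],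
  [0, 0, 0, 1, 0], [0, 0, 0, 0, 1], [0, 0, 1, 0, 1], [0, 0, 0, 1, 1]]

def C5 : List (List (List ℤ)) := [[[1, -1, -1, -1, -1], [1, 1, -1, -1, -1], [0, -1, -1, -1, -1],
  [1, -1, 1, -1, -1], [1, -1, -1, 1, -1], [1, -1, -1, -1, 1], [2, -2, 1, -2, 1], [2, -2, -2, 1,
  1]], [[1, 1, -1, -1, -1], [-1, 1, -1, -1, -1], [-1, 0, -1, -1, -1], [-1, 1, 1, -1, -1], [-1,
  1, -1, 1, -1], [-1, 1, -1, -1, 1], [-2, 2, 1, -2, 1], [-2, 2, -2, 1, 1]], [[0, -1, -1, -1,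
  -1], [-1, 0, -1, -1, -1], [-1, -1, -1, -1, -1], [-1, -1, 0, -1, -1], [-1, -1, -1, 0, -1], [-1,
  -1, -1, -1, 0], [0, 0, -1, 1, 0, 1, -1, 0], [0, 0, -1, 0, 1, 1, 0, -1]], [[1, -1, 1, -1, -1],
  [-1, 1, 1, -1, -1], [-1, -1, 0, -1, -1], [-1, -1, 1, -1, -1], [-1, -1, 1, 1, -1], [0, 0, 1,
  -1, 0, -1, 1, 0], [-1, -1, 1, -1, 0], [0, 0, 0, -1, 1, 0, 1, -1]], [[1, -1, -1, 1, -1], [-1,
  1, -1, 1, -1], [-1, -1, -1, 0, -1], [-1, -1, 1, 1, -1], [-1, -1, -1, 1, -1], [0, 0, 1, 0, -1,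
  -1, 0, 1], [0, 0, 0, 1, -1, 0, -1, 1], [-1, -1, -1, 1, 0]], [[1, -1, -1, -1, 1], [-1, 1, -1,
  -1, 1], [-1, -1, -1, -1, 0], [0, 0, 1, -1, 0, -1, 1, 0], [0, 0, 1, 0, -1, -1, 0, 1], [-1, -1,
  -1, -1, 1], [-1, -1, 0, -1, 1], [-1, -1, -1, 0, 1]], [[2, -2, 1, -2, 1], [-2, 2, 1, -2, 1],
  [0, 0, -1, 1, 0, 1, -1, 0], [-1, -1, 1, -1, 0], [0, 0, 0, 1, -1, 0, -1, 1], [-1, -1, 0, -1,
  1], [-1, -1, 1, -1, 1], [-1, -1, 1, 1, 1]], [[2, -2, -2, 1, 1], [-2, 2, -2, 1, 1], [0, 0, -1,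
  0, 1, 1, 0, -1], [0, 0, 0, -1, 1, 0, 1, -1], [-1, -1, -1, 1, 0], [-1, -1, -1, 0, 1], [-1, -1,
  1, 1, 1], [-1, -1, -1, 1, 1]]]

def N5 : List (List ℤ) := [[1, 0, -2, -1, 2, 1, 1, -2], [0, 1, -2, -1, 2, 1, 1, -2], [0, 0, -2,
  0, 2, 1, 1, -2], [0, 0, -2, 0, 2, 1, 0, -1], [0, 0, -2, -1, 2, 2, 1, -2]]

def V4 : List (List ℤ) := [[-1, -1, 0, 0], [0, 0, 1, -1], [0, 0, 0, -1], [-1, 0, 1, 1], [0, -1,
  0, -1], [1, 0, -1, -1], [1, 0, -1, 1], [1, -1, -1, -1]]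

def C4 : List (List (List ℤ)) := [[[-1, -1, -1, 0], [-3, -2, 3, -2], [-2, 1, -1, -1], [-1, -1,
  0, 1], [-1, -1, 0, -1], [-3, 1, -4, -1], [-1, -2, -2, 2], [-1, -2, -2, 0]], [[-3, -2, 3, -2],
  [-1, 0, 1, -1], [-1, 1, 0, -1], [0, 0, 1, 0], [0, -1, 1, -1], [2, 1, 1, -2], [4, -1, 3, 1],
  [3, -1, 2, -3]], [[-2, 1, -1, -1], [-1, 1, 0, -1], [-2, 1, -1, -2], [-3, 3, -1, -1], [-2, 0,
  -1, -3], [-1, 1, -1, -1], [0, 0, -2, 1, 0, 2, -1, 0], [0, 0, -1, 0, 1, 1, 0, -1]], [[-1, -1,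
  0, 1], [0, 0, 1, 0], [-3, 3, -1, -1], [-1, -1, 1, 1], [3, -5, 4, 2], [0, 0, 2, -1, 0, -2, 1,
  0], [-1, 1, -1, 1], [0, 0, 0, -1, 2, 0, 1, -2]], [[-1, -1, 0, -1], [0, -1, 1, -1], [-2, 0, -1,
  -3], [3, -5, 4, 2], [-1, -2, 0, -2], [0, 0, 1, 0, -1, -1, 0, 1], [0, 0, 0, 1, -2, 0, -1, 2],
  [0, -1, 0, -1]], [[-3, 1, -4, -1], [2, 1, 1, -2], [-1, 1, -1, -1], [0, 0, 2, -1, 0, -2, 1, 0],
  [0, 0, 1, 0, -1, -1, 0, 1], [0, 1, -1, -1], [0, 1, -1, 0], [0, 0, -1, -1]], [[-1, -2, -2, 2],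
  [4, -1, 3, 1], [0, 0, -2, 1, 0, 2, -1, 0], [-1, 1, -1, 1], [0, 0, 0, 1, -2, 0, -1, 2], [0, 1,
  -1, 0], [0, -1, -1, 1], [0, -2, -2, 1]], [[-1, -2, -2, 0], [3, -1, 2, -3], [0, 0, -1, 0, 1, 1,
  0, -1], [0, 0, 0, -1, 2, 0, 1, -2], [0, -1, 0, -1], [0, 0, -1, -1], [0, -2, -2, 1], [0, -1,
  -1, -1]]]

def N4 : List (List ℤ) := [[-2, -1, -2, 2, 2, 2, -1, 0], [-2, -2, 0, 2, 2, 2, -1, -1], [-2, -1,
  -1, 2, 2, 1, -1, 0], [-1, -1, -2, 2, 1, 2, -1, 0]]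

def A3 (i j : Fin 6) : Bool := i.val / 3 = j.val / 3 ∨ i.val % 3 = j.val % 3

def A5 (i j : Fin 8) : Bool := i.val < 2 ∨ j.val < 2 ∨ (i.val - 2) / 3 = (j.val - 2) / 3 ∨
  (i.val - 2) % 3 = (j.val - 2) % 3

theorem result : ∃ P : Set (Fin 3 → ℝ), Poly P ∧ (P.exposedPoints ℝ).ncard = 6 ∧
    (∀ v, ((graph P).neighborSet v).ncard = 3) ∧ Poly (pyr (pyr P)) ∧
    ∃ Q : Set (Fin 4 → ℝ), Poly Q ∧ Nonempty (graph (pyr (pyr P)) ≃g graph Q) := by
  obtain ⟨a, ⟨φ⟩⟩ := main (show Ok 6 3 V3 C3 N3 A3 by decide +kernel)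
  obtain ⟨b, ⟨ψ⟩⟩ := main (show Ok 8 5 V5 C5 N5 A5 by decide +kernel)
  obtain ⟨c, ⟨χ⟩⟩ := main (show Ok 8 4 V4 C4 N4 A5 by decide +kernel)
  have e : pyr (pyr (convexHull ℝ (range fun (k : Fin 6) (a : Fin 3) => (g V3 k a : ℝ)))) =
      convexHull ℝ (range fun (k : Fin 8) (a : Fin 5) => (g V5 k a : ℝ)) := by
    rw [pyr_eq, pyr_eq]
    congr 2
    funext k a
    fin_cases k <;> fin_cases a <;>
      first | rfl | exact Int.cast_zero.symm | exact Int.cast_one.symm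
  refine ⟨_, a, ?_, fun v => ?_, e ▸ b, _, c, e ▸ ⟨ψ.symm.trans χ⟩⟩
  · rw [← Nat.card_coe_set_eq, ← Nat.card_congr φ.toEquiv]
    simp
  · obtain ⟨i, rfl⟩ := φ.surjective v
    rw [← Nat.card_coe_set_eq, ← Nat.card_congr (φ.mapNeighborSet i), Nat.card_eq_fintype_card]
    revert i
    decide +kernel

end Pool.Agent.Results.MP_1e46c9_co.Prism
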